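import Mathlib

namespace Pool.Agent.Results.MP_846857_nt.Parity

open ArithmeticFunction Finset

/-- number of positive divisors -/
def tau (n : ℕ) : ℕ := n.divisors.card

/-- sum of the positive divisors -/
def sig (n : ℕ) : ℕ := ∑ d ∈ n.divisors, d

/-- the sequence of the problem -/
def a (n : ℕ) : ℤ := (n : ℤ) * tau n - ∑ d ∈ n.properDivisors, (d : ℤ) * tau d

def G : ArithmeticFunction ℕ := (ArithmeticFunction.id.pmul (sigma 0)) * zeta

theorem G_mult : G.IsMultiplicative :=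
  (isMultiplicative_id.pmul isMultiplicative_sigma).mul isMultiplicative_zeta

theorem G_apply (n : ℕ) : G n = ∑ d ∈ n.divisors, d * tau d := by
  rw [G, mul_zeta_apply]
  refine Finset.sum_congr rfl fun d _ => ?_
  simp [tau, sigma_zero_apply]

theorem sig_eq (n : ℕ) : sigma 1 n = sig n := by simp [sig, sigma_one_apply]

theorem tau_eq (n : ℕ) : sigma 0 n = tau n := by simp [tau, sigma_zero_apply]

theorem tau_pow (p e : ℕ) (hp : p.Prime) : tau (p ^ e) = e + 1 := by
  simp [tau, Nat.divisors_prime_pow hp]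

theorem G_pow (p e : ℕ) (hp : p.Prime) : G (p ^ e) = ∑ j ∈ range (e + 1), p ^ j * (j + 1) := by
  rw [G_apply, Nat.sum_divisors_prime_pow hp]
  exact Finset.sum_congr rfl fun j _ => by rw [tau_pow p j hp]

theorem sig_pow (p e : ℕ) (hp : p.Prime) : sig (p ^ e) = ∑ j ∈ range (e + 1), p ^ j := by
  rw [sig, Nat.sum_divisors_prime_pow hp]

theorem main_eq (n : ℕ) (hn : n ≠ 0) (h : a n = sig n) : G n + sig n = 2 * (n * tau n) := by
  have h1 : (G n : ℤ) = ∑ d ∈ n.properDivisors, (d : ℤ) * tau d + n * tau n := by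
    rw [G_apply, ← Nat.insert_self_properDivisors hn, Finset.sum_insert Nat.self_notMem_properDivisors]
    push_cast; ring
  unfold a at h
  zify
  linarith

theorem par_odd (p : ℕ) (hp : p % 2 = 1) (e : ℕ) :
    ((∑ j ∈ range (e + 1), p ^ j * (j + 1)) % 2 = 0 ↔ 2 ≤ e % 4) ∧
      (∑ j ∈ range (e + 1), p ^ j) % 2 = (e + 1) % 2 := by
  have hpw : ∀ j, p ^ j % 2 = 1 := fun j => by rw [Nat.pow_mod, hp]; simp
  induction e with
  | zero => simp
  | succ e ih =>
    rw [Finset.sum_range_succ _ (e + 1), Finset.sum_range_succ _ (e + 1)]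
    have h1 := hpw (e + 1)
    have h2 : p ^ (e + 1) * (e + 1 + 1) % 2 = (e + 1 + 1) % 2 := by
      rw [Nat.mul_mod, h1]; simp
    omega

theorem par_two (e : ℕ) :
    (∑ j ∈ range (e + 1), 2 ^ j * (j + 1)) % 2 = 1 ∧ (∑ j ∈ range (e + 1), 2 ^ j) % 2 = 1 := by
  induction e with
  | zero => simp
  | succ e ih =>
    rw [Finset.sum_range_succ _ (e + 1), Finset.sum_range_succ _ (e + 1)]
    have h1 : 2 ^ (e + 1) * (e + 1 + 1) = 2 * (2 ^ e * (e + 1 + 1)) := by ring
    have h2 : 2 ^ (e + 1) = 2 * 2 ^ e := by ring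
    omega

theorem ident (p e : ℕ) :
    ((p : ℤ) - 1) * ((∑ j ∈ range (e + 1), p ^ j * (j + 1) : ℕ) : ℤ) +
      ((∑ j ∈ range (e + 1), p ^ j : ℕ) : ℤ) = (e + 1) * (p : ℤ) ^ (e + 1) := by
  induction e with
  | zero => simp
  | succ e ih =>
    rw [Finset.sum_range_succ _ (e + 1), Finset.sum_range_succ _ (e + 1), Nat.cast_add,
      Nat.cast_add]
    push_cast at ih ⊢
    linear_combination ih

theorem even_iff (f : ArithmeticFunction ℕ) (hf : f.IsMultiplicative) (n : ℕ) (hn : n ≠ 0) :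
    2 ∣ f n ↔ ∃ p ∈ n.primeFactors, 2 ∣ f (p ^ n.factorization p) := by
  rw [hf.multiplicative_factorization f hn, Finsupp.prod, Nat.support_factorization]
  exact Nat.prime_two.prime.dvd_finsetProd_iff _

theorem part1 (n : ℕ) (hn : n ≠ 0) (h : a n = sig n) :
    (∃ p, p.Prime ∧ p ≠ 2 ∧ 2 ≤ n.factorization p % 4) ↔
      (∃ p, p.Prime ∧ p ≠ 2 ∧ n.factorization p % 2 = 1) := by
  have h0 := main_eq n hn h
  have h1 : 2 ∣ G n ↔ 2 ∣ sigma 1 n := by rw [sig_eq]; omega
  rw [even_iff G G_mult n hn, even_iff _ isMultiplicative_sigma n hn] at h1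
  have hmem : ∀ p, p.Prime → n.factorization p ≠ 0 → p ∈ n.primeFactors := fun p _ h => by
    rw [← Nat.support_factorization]; exact Finsupp.mem_support_iff.2 h
  constructor
  · rintro ⟨p, hp, h2, he⟩
    have ho : p % 2 = 1 := hp.eq_two_or_odd.resolve_left h2
    obtain ⟨q, hq, hd⟩ := h1.1 ⟨p, hmem p hp (by omega), by
      rw [G_pow p _ hp]; exact Nat.dvd_of_mod_eq_zero ((par_odd p ho _).1.2 he)⟩
    have hq' := Nat.prime_of_mem_primeFactors hq
    rw [sig_eq, sig_pow q _ hq'] at hd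
    rcases hq'.eq_two_or_odd with rfl | hqo
    · have := (par_two (n.factorization 2)).2; omega
    · have := (par_odd q hqo (n.factorization q)).2
      exact ⟨q, hq', by rintro rfl; omega, by omega⟩
  · rintro ⟨p, hp, h2, he⟩
    have ho : p % 2 = 1 := hp.eq_two_or_odd.resolve_left h2
    obtain ⟨q, hq, hd⟩ := h1.2 ⟨p, hmem p hp (by omega), by
      rw [sig_eq, sig_pow p _ hp]
      have := (par_odd p ho (n.factorization p)).2
      omega⟩
    have hq' := Nat.prime_of_mem_primeFactors hq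
    rw [G_pow q _ hq'] at hd
    rcases hq'.eq_two_or_odd with rfl | hqo
    · have := (par_two (n.factorization 2)).1; omega
    · exact ⟨q, hq', by rintro rfl; omega,
        (par_odd q hqo (n.factorization q)).1.1 (Nat.mod_eq_zero_of_dvd hd)⟩

theorem part2 (k p e : ℕ) (hp : p.Prime) (h2 : p ≠ 2) (h : a (2 ^ k * p ^ (e + 1)) = sig (2 ^ k * p ^ (e + 1))) :
    False := by
  have ho : p % 2 = 1 := hp.eq_two_or_odd.resolve_left h2
  have hco : Nat.Coprime (2 ^ k) (p ^ (e + 1)) :=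
    Nat.Coprime.pow _ _ ((Nat.coprime_primes Nat.prime_two hp).2 (Ne.symm h2))
  have h0 := main_eq _ (by have := hp.pos; positivity) h
  rw [← sig_eq, ← tau_eq, G_mult.map_mul_of_coprime hco,
    isMultiplicative_sigma.map_mul_of_coprime hco, isMultiplicative_sigma.map_mul_of_coprime hco,
    sig_eq, sig_eq, tau_eq, tau_eq, G_pow _ _ hp, G_pow _ _ Nat.prime_two, sig_pow _ _ hp,
    sig_pow _ _ Nat.prime_two, tau_pow _ _ hp, tau_pow _ _ Nat.prime_two,
    Finset.sum_range_succ _ (e + 1), Finset.sum_range_succ _ (e + 1)] at h0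
  have i1 := ident 2 k
  have i2 := ident p e
  have hA := (par_two k).1
  have hP : 0 < ∑ j ∈ range (e + 1), p ^ j * (j + 1) :=
    Finset.sum_pos (fun j _ => by have := hp.pos; positivity) ⟨0, by simp⟩
  generalize (∑ j ∈ range (k + 1), 2 ^ j * (j + 1)) = A at *
  generalize (∑ j ∈ range (k + 1), 2 ^ j) = B at *
  generalize (∑ j ∈ range (e + 1), p ^ j * (j + 1)) = P at *
  generalize (∑ j ∈ range (e + 1), p ^ j) = Y at *
  have h3 : ((A : ℤ) - B * (p - 1)) * P = 0 := by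
    zify at h0
    push_cast at i1
    linear_combination h0 - (B : ℤ) * i2 - ((e : ℤ) + 2) * (p : ℤ) ^ (e + 1) * i1
  have h4 : (A : ℤ) = B * (p - 1) := by
    rcases mul_eq_zero.1 h3 with h | h
    · linarith
    · omega
  obtain ⟨r, hr⟩ : ∃ r : ℤ, (p : ℤ) - 1 = 2 * r := ⟨p / 2, by omega⟩
  rw [hr] at h4
  have h5 : (A : ℤ) = 2 * (B * r) := by rw [h4]; ring
  omega

theorem result (n : ℕ) (hn : 0 < n) (h : a n = sig n) :
    ((∃ p, p.Prime ∧ p ≠ 2 ∧ 2 ≤ n.factorization p % 4) ↔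
      (∃ p, p.Prime ∧ p ≠ 2 ∧ n.factorization p % 2 = 1)) ∧
    (∀ k p e : ℕ, p.Prime → p ≠ 2 → n = 2 ^ k * p ^ e → e = 0) := by
  refine ⟨part1 n hn.ne' h, fun k p e hp h2 hne => ?_⟩
  cases e with
  | zero => rfl
  | succ e => exact (part2 k p e hp h2 (hne ▸ h)).elim

end Pool.Agent.Results.MP_846857_nt.Parity
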